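import Pool.Agent.MP_4d0c5f_nt.Final
import Pool.Agent.MP_4d0c5f_nt.Degenerate

namespace Pool.Agent.Results.MP_4d0c5f_nt.Separation

open Pool.Agent.MP_4d0c5f_nt

/-- Conditions (i) and (ii) of the problem on `I`: no `g k` coincides on `I` with a fractional
linear function (constants and affine functions included), and no `f k₁` coincides on `I` with a
fractional linear function of a `g k₂`. -/
def Conditions (I : Set ℝ) (f g : ℕ → ℝ → ℝ) : Prop :=
  (∀ k : ℕ, ∀ a b c d : ℝ, (c ≠ 0 ∨ d ≠ 0) →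
    ¬ ∀ z ∈ I, c * z + d ≠ 0 ∧ g k z = (a * z + b) / (c * z + d)) ∧
  ∀ k₁ k₂ : ℕ, ∀ a b c d : ℝ, (c ≠ 0 ∨ d ≠ 0) →
    ¬ ∀ z ∈ I, c * g k₂ z + d ≠ 0 ∧ f k₁ z = (a * g k₂ z + b) / (c * g k₂ z + d)

/-- Question Q1. (1) For every `n ≥ 2`, every open interval `I` that contains `0` and all sequences
of real-analytic functions on `I` with (i) and (ii): if all the matrix extensions are defined at
one common matrix `B` that is not nilpotent (for single functions, or finitely many, this always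
holds), then there is a Liouville matrix `A` such that all `f k` are defined at `A` with a
Liouville matrix as value, and all `g k` are defined at `A` with a value that is not a Liouville
matrix. (2) Without such a `B` the statement fails: for every `n ≥ 2` there are sequences of
functions, analytic on the whole line and satisfying (i) and (ii) on every open set that contains
`0`, such that every `A` at which all `f k` are defined is nilpotent and satisfies `g k (A) = A`
for all `k`. -/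
theorem result :
    (∀ n : ℕ, 2 ≤ n → ∀ I : Set ℝ, IsOpen I → I.OrdConnected → (0 : ℝ) ∈ I →
      ∀ f g : ℕ → ℝ → ℝ, (∀ k, AnalyticOnNhd ℝ (f k) I) → (∀ k, AnalyticOnNhd ℝ (g k) I) →
      Conditions I f g →
      (∃ B : Matrix (Fin n) (Fin n) ℝ, ¬ IsNilpotent B ∧
        ∀ k, ExtDefined (f k) B ∧ ExtDefined (g k) B) →
      ∃ A : Matrix (Fin n) (Fin n) ℝ, IsLiouvilleMatrix A ∧
        ∀ k, ExtDefined (f k) A ∧ ExtDefined (g k) A ∧ IsLiouvilleMatrix (matExt (f k) A) ∧
          ¬ IsLiouvilleMatrix (matExt (g k) A)) ∧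
    ∀ n : ℕ, 2 ≤ n → ∃ f g : ℕ → ℝ → ℝ,
      (∀ k, AnalyticOnNhd ℝ (f k) Set.univ) ∧ (∀ k, AnalyticOnNhd ℝ (g k) Set.univ) ∧
      (∀ I : Set ℝ, IsOpen I → (0 : ℝ) ∈ I → Conditions I f g) ∧
      ∀ A : Matrix (Fin n) (Fin n) ℝ, (∀ k, ExtDefined (f k) A) →
        IsNilpotent A ∧ ∀ k, ExtDefined (g k) A ∧ matExt (g k) A = A := by
  refine ⟨fun n hn I hIo hIc h0 f g hf hg hfg ⟨B, hB, hdef⟩ => ?_, fun n hn => degenerate n hn⟩
  obtain ⟨ρ, hρ, hs⟩ := rad_of_def B hB
  obtain ⟨m, rfl⟩ : ∃ m, n = m + 2 := ⟨n - 2, by omega⟩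
  exact main_construction m I hIo hIc h0 f g hf hg
    ⟨ρ, hρ, fun k => ⟨hs _ (hdef k).1, hs _ (hdef k).2⟩⟩ hfg.1 hfg.2

end Pool.Agent.Results.MP_4d0c5f_nt.Separation
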